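import Mathlib

/-!
# Linear search with turning cost `d`: the value is strictly smaller than `9 + 2 d`

The trajectory `x_i = d (λ^(i+1) - 1) / 2` with `1 < λ < 2` reaches every point `H` at time at most
`d λ + (1 + 2 λ² / (λ - 1)) |H|`.  For `λ = 2` this is `2 d + 9 |H|`.  A smaller `λ` lowers the
constant term more than it raises the slope: the sum of the two coefficients is minimal for
`(λ - 1)² = 2 / (d + 2)`, where it is equal to `5 + d + 2 √(2 d + 4) < 9 + 2 d`.
-/

set_option autoImplicit false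

namespace Pool.Agent.Results.MP_5c5fd6_lc.BelowNinePlusTwoD

open MeasureTheory
open scoped ENNReal

/-- The point `(-1)^i x_i` at which the `i`-th turn takes place. -/
noncomputable def turn (x : ℕ → ℝ) (i : ℕ) : ℝ := (-1) ^ i * x i

/-- The point at which leg number `i` starts: the origin for `i = 0`, otherwise the place of the
previous turn. -/
noncomputable def legStart (x : ℕ → ℝ) : ℕ → ℝ
  | 0 => 0
  | i + 1 => turn x i

/-- The time at which leg number `i` starts: every leg is traversed with unit speed, and then the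
turn takes the extra time `d`. -/
noncomputable def legTime (d : ℝ) (x : ℕ → ℝ) : ℕ → ℝ
  | 0 => 0
  | i + 1 => legTime d x i + |turn x i - legStart x i| + d

/-- The searcher is at the point `H` at time `t`: either on leg `i`, moving with unit speed from
`legStart x i` to `turn x i`, or during the `i`-th turn at the point `turn x i`. -/
def IsAt (d : ℝ) (x : ℕ → ℝ) (t H : ℝ) : Prop :=
  ∃ i : ℕ,
    (H ∈ Set.uIcc (legStart x i) (turn x i) ∧ t = legTime d x i + |H - legStart x i|) ∨
    (H = turn x i ∧ legTime d x i + |turn x i - legStart x i| ≤ t ∧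
      t ≤ legTime d x i + |turn x i - legStart x i| + d)

/-- `C(S, H)`: the first time at which the searcher is at `H` (`∞` if she is never there). -/
noncomputable def C (d : ℝ) (x : ℕ → ℝ) (H : ℝ) : ℝ≥0∞ :=
  ⨅ (t : ℝ) (_ : IsAt d x t H), ENNReal.ofReal t

/-- The value `V̄(d)`: the infimum over all search trajectories of the supremum of the expected
search time over all hiding strategies `h` with `E_h |H| ≤ 1`. -/
noncomputable def V (d : ℝ) : ℝ≥0∞ :=
  ⨅ (x : ℕ → ℝ) (_ : ∀ i, 0 < x i),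
    ⨆ (h : Measure ℝ) (_ : IsProbabilityMeasure h) (_ : ∫⁻ H, ENNReal.ofReal |H| ∂h ≤ 1),
      ∫⁻ H, C d x H ∂h

/-- The trajectory used. -/
noncomputable def traj (d μ : ℝ) (i : ℕ) : ℝ := d * ((1 + μ) ^ (i + 1) - 1) / 2

lemma traj_pos {d μ : ℝ} (hd : 0 < d) (hμ : 0 < μ) (i : ℕ) : 0 < traj d μ i := by
  unfold traj
  have : 1 < (1 + μ) ^ (i + 1) := one_lt_pow₀ (by linarith) (by omega)
  have h2 : 0 < (1 + μ) ^ (i + 1) - 1 := by linarith
  positivity

lemma abs_leg {x : ℕ → ℝ} (hx : ∀ i, 0 < x i) (i : ℕ) :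
    |turn x (i + 1) - turn x i| = x (i + 1) + x i := by
  have h1 := hx i
  have h2 := hx (i + 1)
  unfold turn
  rcases Nat.even_or_odd i with h | h
  · rw [h.neg_one_pow, h.add_one.neg_one_pow, abs_of_neg] <;> linarith
  · rw [h.neg_one_pow, h.add_one.neg_one_pow, abs_of_pos] <;> linarith

lemma legTime_traj {d μ : ℝ} (hd : 0 < d) (hμ : 0 < μ) (i : ℕ) :
    legTime d (traj d μ) (i + 1) + traj d μ i = d * (1 + μ) * ((1 + μ) ^ (i + 1) - 1) / μ := by
  induction i with
  | zero =>
    have h0 := traj_pos hd hμ 0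
    simp only [legTime, legStart, turn, pow_zero, one_mul, sub_zero, zero_add]
    rw [abs_of_pos h0]
    unfold traj
    field_simp
    ring
  | succ i ih =>
    rw [legTime, legStart, abs_leg (traj_pos hd hμ)]
    have h1 : legTime d (traj d μ) (i + 1) =
        d * (1 + μ) * ((1 + μ) ^ (i + 1) - 1) / μ - traj d μ i := by linarith
    rw [h1]
    unfold traj
    field_simp
    ring

/-- The searcher reaches `H` on leg `i`, if that leg leads to a point beyond `H`. -/
lemma C_le_of_leg {d μ : ℝ} (hd : 0 < d) (hμ : 0 < μ) (H : ℝ) (i : ℕ)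
    (h1 : 0 ≤ (-1) ^ (i + 1) * H) (h2 : |H| ≤ traj d μ (i + 1)) :
    C d (traj d μ) H ≤
      ENNReal.ofReal (d * (1 + μ) * ((1 + μ) ^ (i + 1) - 1) / μ + |H|) := by
  refine iInf₂_le_of_le (d * (1 + μ) * ((1 + μ) ^ (i + 1) - 1) / μ + |H|) ?_ le_rfl
  refine ⟨i + 1, Or.inl ⟨?_, ?_⟩⟩
  · have ha := traj_pos hd hμ i
    have hb := traj_pos hd hμ (i + 1)
    have h3 := abs_le.1 h2
    simp only [legStart, turn]
    rw [Set.mem_uIcc]
    rcases Nat.even_or_odd i with h | h
    · rw [h.add_one.neg_one_pow] at h1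
      rw [h.neg_one_pow, h.add_one.neg_one_pow]
      right
      constructor <;> linarith
    · rw [h.add_one.neg_one_pow] at h1
      rw [h.neg_one_pow, h.add_one.neg_one_pow]
      left
      constructor <;> linarith
  · have ha := traj_pos hd hμ i
    rw [← legTime_traj hd hμ i]
    simp only [legStart, turn]
    have : |H - (-1) ^ i * traj d μ i| = |H| + traj d μ i := by
      rcases Nat.even_or_odd i with h | h
      · rw [h.add_one.neg_one_pow] at h1
        rw [h.neg_one_pow, abs_of_nonpos (by linarith : H ≤ 0), abs_of_nonpos (by linarith)]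
        ring
      · rw [h.add_one.neg_one_pow] at h1
        rw [h.neg_one_pow, abs_of_nonneg (by linarith : 0 ≤ H), abs_of_nonneg (by linarith)]
        ring
    rw [this]
    ring

lemma exists_leg {d μ : ℝ} (hd : 0 < d) (hμ : 0 < μ) (H : ℝ) :
    ∃ i : ℕ, 0 ≤ (-1) ^ i * H ∧ |H| ≤ traj d μ i := by
  obtain ⟨n, hn⟩ := pow_unbounded_of_one_lt (2 * |H| / d + 1) (by linarith : 1 < 1 + μ)
  have key : ∀ m, n ≤ m → |H| ≤ traj d μ m := by
    intro m hm
    have h1 : (1 + μ) ^ n ≤ (1 + μ) ^ (m + 1) :=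
      pow_le_pow_right₀ (by linarith) (by omega)
    have h2 : 2 * |H| / d ≤ (1 + μ) ^ (m + 1) - 1 := by linarith
    rw [div_le_iff₀ hd] at h2
    unfold traj
    linarith
  rcases le_total 0 H with h0 | h0
  · refine ⟨2 * n, ?_, key _ (by omega)⟩
    rw [(even_two_mul n).neg_one_pow]
    linarith
  · refine ⟨2 * n + 1, ?_, key _ (by omega)⟩
    rw [(even_two_mul n).add_one.neg_one_pow]
    linarith

lemma C_le {d μ : ℝ} (hd : 0 < d) (hμ : 0 < μ) (H : ℝ) :
    C d (traj d μ) H ≤ ENNReal.ofReal (d * (1 + μ) + (5 + 2 * μ + 2 / μ) * |H|) := by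
  classical
  have hex := exists_leg hd hμ H
  obtain ⟨i, hi, hmin⟩ : ∃ i : ℕ, (0 ≤ (-1) ^ i * H ∧ |H| ≤ traj d μ i) ∧
      ∀ j < i, ¬ (0 ≤ (-1) ^ j * H ∧ |H| ≤ traj d μ j) :=
    ⟨Nat.find hex, Nat.find_spec hex, fun j hj => Nat.find_min hex hj⟩
  have hH := abs_nonneg H
  have hμ' : 0 < 2 / μ := by positivity
  match i, hi, hmin with
  | 0, hi, _ =>
    have h1 : 0 ≤ H := by simpa using hi.1
    have h3 : |H| = H := abs_of_nonneg h1
    refine iInf₂_le_of_le H ?_ ?_
    · refine ⟨0, Or.inl ⟨?_, ?_⟩⟩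
      · simp only [legStart, turn, pow_zero, one_mul]
        rw [Set.mem_uIcc]
        left
        exact ⟨h1, by rw [← h3]; exact hi.2⟩
      · simp [legStart, legTime, h3]
    · apply ENNReal.ofReal_le_ofReal
      rw [h3]
      nlinarith [mul_nonneg hμ.le h1, mul_nonneg hμ'.le h1, mul_pos hd hμ]
  | 1, hi, _ =>
    refine (C_le_of_leg hd hμ H 0 hi.1 hi.2).trans (ENNReal.ofReal_le_ofReal ?_)
    have : d * (1 + μ) * ((1 + μ) ^ (0 + 1) - 1) / μ = d * (1 + μ) := by
      field_simp
      ring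
    rw [this]
    nlinarith [mul_nonneg hμ.le hH, mul_nonneg hμ'.le hH]
  | k + 2, hi, hmin =>
    have hk : traj d μ k < |H| := by
      by_contra hcon
      push Not at hcon
      refine hmin k (by omega) ⟨?_, hcon⟩
      have := hi.1
      rwa [pow_add, neg_one_sq, mul_one] at this
    refine (C_le_of_leg hd hμ H (k + 1) hi.1 hi.2).trans (ENNReal.ofReal_le_ofReal ?_)
    have h4 : d * (1 + μ) * ((1 + μ) ^ (k + 1 + 1) - 1) / μ =
        d * (1 + μ) + (4 + 2 * μ + 2 / μ) * traj d μ k := by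
      unfold traj
      field_simp
      ring
    rw [h4]
    have h5 : 0 < 4 + 2 * μ + 2 / μ := by positivity
    nlinarith [mul_lt_mul_of_pos_left hk h5]

/-- For every turning cost `d > 0` the value satisfies `V̄(d) ≤ 5 + d + 2 √(2 d + 4) < 9 + 2 d`; in
particular `V̄(d) ≠ 9 + 2 d` for every `d > 0`. -/
theorem result (d : ℝ) (hd : 0 < d) :
    V d ≤ ENNReal.ofReal (5 + d + 2 * √(2 * d + 4)) ∧
      5 + d + 2 * √(2 * d + 4) < 9 + 2 * d ∧
      V d < ENNReal.ofReal (9 + 2 * d) := by
  have hlt : 5 + d + 2 * √(2 * d + 4) < 9 + 2 * d := by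
    have h1 : √(2 * d + 4) < (4 + d) / 2 := by
      rw [Real.sqrt_lt' (by linarith)]
      nlinarith [mul_pos hd hd]
    linarith
  have hle : V d ≤ ENNReal.ofReal (5 + d + 2 * √(2 * d + 4)) := by
    set s : ℝ := √(2 * d + 4) with hs
    have hs0 : 0 < s := Real.sqrt_pos.2 (by linarith)
    have hss : s ^ 2 = 2 * d + 4 := Real.sq_sqrt (by linarith)
    -- `μ = 2 / s`
    have hμ : 0 < 2 / s := by positivity
    refine iInf₂_le_of_le (traj d (2 / s)) (traj_pos hd hμ) ?_
    refine iSup_le fun h => iSup_le fun hprob => iSup_le fun hE => ?_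
    have hb : 0 ≤ 5 + 2 * (2 / s) + 2 / (2 / s) := by positivity
    have ha : 0 ≤ d * (1 + 2 / s) := by positivity
    calc ∫⁻ H, C d (traj d (2 / s)) H ∂h
        ≤ ∫⁻ H, (ENNReal.ofReal (d * (1 + 2 / s)) +
            ENNReal.ofReal (5 + 2 * (2 / s) + 2 / (2 / s)) * ENNReal.ofReal |H|) ∂h := by
          refine lintegral_mono fun H => (C_le hd hμ H).trans ?_
          rw [ENNReal.ofReal_add ha (by positivity), ENNReal.ofReal_mul hb]
      _ = ENNReal.ofReal (d * (1 + 2 / s)) +
            ENNReal.ofReal (5 + 2 * (2 / s) + 2 / (2 / s)) * ∫⁻ H, ENNReal.ofReal |H| ∂h := by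
          rw [lintegral_add_left measurable_const, lintegral_const, measure_univ, mul_one,
            lintegral_const_mul]
          exact (measurable_id.abs).ennreal_ofReal
      _ ≤ ENNReal.ofReal (d * (1 + 2 / s)) +
            ENNReal.ofReal (5 + 2 * (2 / s) + 2 / (2 / s)) * 1 := by gcongr
      _ = ENNReal.ofReal (5 + d + 2 * s) := by
          rw [mul_one, ← ENNReal.ofReal_add ha hb]
          congr 1
          field_simp
          nlinarith [hss]
  exact ⟨hle, hlt, hle.trans_lt ((ENNReal.ofReal_lt_ofReal_iff (by linarith)).2 hlt)⟩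

end Pool.Agent.Results.MP_5c5fd6_lc.BelowNinePlusTwoD
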